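import Pool.Agent.Lib.MP_a4d326_an.Main

namespace Pool.Agent.Results.MP_a4d326_an.NotAsymptoticallyEqual

open MeasureTheory Set Real
open Pool.Agent.Lib.MP_a4d326_an

/-- `x mod 2π`, the representative of `x` in `[0, 2π)`. -/
noncomputable def modTwoPi (x : ℝ) : ℝ := toIcoMod Real.two_pi_pos 0 x

/-- The least `n ≥ 1` with `(n a - b) mod 2π < ε`, and `∞` if there is none. -/
noncomputable def tau1 (ε a b : ℝ) : ℕ∞ :=
  ⨅ (n : ℕ) (_ : 1 ≤ n ∧ modTwoPi (n * a - b) < ε), (n : ℕ∞)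

/-- The least `n ≥ 1` with `(n a - n b) mod 2π < ε`, and `∞` if there is none. -/
noncomputable def tau2 (ε a b : ℝ) : ℕ∞ :=
  ⨅ (n : ℕ) (_ : 1 ≤ n ∧ modTwoPi (n * a - n * b) < ε), (n : ℕ∞)

/-- The square `E = [0, 2π)²`. -/
def E : Set (ℝ × ℝ) := Ico 0 (2 * π) ×ˢ Ico 0 (2 * π)

/-- The pairs for which the first orbit arrives strictly earlier. -/
def E1 (ε : ℝ) : Set (ℝ × ℝ) := {p ∈ E | tau1 ε p.1 p.2 < tau2 ε p.1 p.2}

/-- The remaining pairs. -/
def E2 (ε : ℝ) : Set (ℝ × ℝ) := E \ E1 ε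

noncomputable def phi (x : ℝ) : T := ((x / (2 * π) : ℝ) : T)

lemma measurable_phi : Measurable phi := measurable_coe.comp (measurable_id.div_const _)

lemma phi_mem {ε x : ℝ} (hε : ε ≤ 2 * π) : phi x ∈ arc 0 (ε / (2 * π)) ↔ modTwoPi x < ε := by
  have hp := Real.two_pi_pos
  rw [phi, coe_mem_arc]
  constructor
  · rintro ⟨j, hj⟩
    have h1 : x / (2 * π) - j = (x - j * (2 * π)) / (2 * π) := by field_simp
    rw [h1, mem_Ico, le_div_iff₀ hp, div_lt_div_iff_of_pos_right hp] at hj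
    have : modTwoPi x = x - j * (2 * π) := by
      rw [modTwoPi, toIcoMod_eq_iff]
      exact ⟨⟨by linarith [hj.1], by linarith [hj.2]⟩, j, by simp⟩
    rw [this]; exact hj.2
  · intro h
    refine ⟨toIcoDiv Real.two_pi_pos 0 x, ?_⟩
    have h1 : x / (2 * π) - toIcoDiv Real.two_pi_pos 0 x = modTwoPi x / (2 * π) := by
      rw [modTwoPi, toIcoMod, zsmul_eq_mul]; field_simp
    rw [h1, mem_Ico, le_div_iff₀ hp, div_lt_div_iff_of_pos_right hp]
    exact ⟨by rw [zero_mul]; exact left_le_toIcoMod Real.two_pi_pos 0 x, h⟩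

lemma phi_lin (n k : ℕ) (a b : ℝ) : n • phi a - k • phi b = phi (n * a - k * b) := by
  simp only [phi, ← AddCircle.coe_nsmul, ← AddCircle.coe_sub, nsmul_eq_mul]
  congr 1; ring

lemma mp_phi : MeasurePreserving phi (volume.restrict (Ico 0 (2 * π)))
    (ENNReal.ofReal (2 * π) • volume) := by
  have hp := Real.two_pi_pos
  have h1 : MeasurePreserving (fun x : ℝ => x * (2 * π)⁻¹) (volume.restrict (Ico 0 (2 * π)))
      (ENNReal.ofReal (2 * π) • volume.restrict (Ioc (0 : ℝ) (0 + 1))) := by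
    refine ⟨measurable_id.mul_const _, ?_⟩
    have h2 : (fun x : ℝ => x * (2 * π)⁻¹) ⁻¹' Ioc (0 : ℝ) (0 + 1) = Ioc 0 (2 * π) := by
      ext x
      simp only [mem_preimage, mem_Ioc, zero_add, ← div_eq_mul_inv, lt_div_iff₀ hp, div_le_iff₀ hp,
        zero_mul, one_mul]
    rw [Measure.restrict_congr_set Ico_ae_eq_Ioc, ← h2,
      ← Measure.restrict_map (measurable_id'.mul_const _) measurableSet_Ioc,
      Real.map_volume_mul_right (inv_ne_zero hp.ne'), Measure.restrict_smul, inv_inv, abs_of_pos hp]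
  exact ((UnitAddCircle.measurePreserving_mk 0).smul_measure _).comp h1

lemma vol_pre {S : Set (T × T)} (hS : MeasurableSet S) :
    volume.real (E ∩ Prod.map phi phi ⁻¹' S) = (2 * π) ^ 2 * volume.real S := by
  have h1 := (mp_phi.prod mp_phi).measure_preimage hS.nullMeasurableSet
  rw [Measure.prod_restrict, Measure.restrict_apply ((measurable_phi.prodMap measurable_phi) hS),
    Measure.prod_smul_left, Measure.prod_smul_right] at h1
  rw [inter_comm, Measure.real, Measure.real, E, Measure.volume_eq_prod, h1, Measure.volume_eq_prod]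
  simp only [Measure.smul_apply, smul_eq_mul, ENNReal.toReal_mul,
    ENNReal.toReal_ofReal Real.two_pi_pos.le]
  ring

/-- For every `ε ∈ (0, 10⁻²⁶]` the measure of `E¹_ε` exceeds that of `E²_ε` by at least `1/3`. -/
theorem result : ∀ ε : ℝ, 0 < ε → ε ≤ 1 / 10 ^ 26 →
    1 / 3 ≤ (volume (E1 ε)).toReal - (volume (E2 ε)).toReal := by
  intro ε hε hε1
  have hp := Real.two_pi_pos
  have h3 := Real.pi_gt_three
  have hε2 : ε ≤ 2 * π := by linarith
  obtain ⟨M, hM⟩ := vol_union (ε := ε / (2 * π)) (by positivity)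
    ((div_le_self hε.le (by linarith)).trans hε1)
  set S := ⋃ m ∈ Finset.Icc 1 M, F (ε / (2 * π)) m with hSdef
  have hS : MeasurableSet S := Finset.measurableSet_biUnion _ fun m _ => measurableSet_F _ m
  have hsub : E ∩ Prod.map phi phi ⁻¹' S ⊆ E1 ε := by
    rintro ⟨a, b⟩ ⟨hE, hab⟩
    refine ⟨hE, ?_⟩
    simp only [hSdef, mem_preimage, mem_iUnion] at hab
    obtain ⟨m, -, h1, -, h2⟩ := hab
    simp only [Prod.map] at h1 h2
    have t1 : tau1 ε a b ≤ (m + 1 : ℕ) := by
      refine iInf₂_le (m + 1) ⟨by omega, ?_⟩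
      have := phi_lin (m + 1) 1 a b
      rw [one_nsmul] at this
      rw [this, phi_mem hε2] at h1
      simpa using h1
    have t2 : ((m + 2 : ℕ) : ℕ∞) ≤ tau2 ε a b := by
      refine le_iInf₂ fun n hn => ?_
      by_contra hc
      have hn2 : n < m + 2 := by exact_mod_cast not_le.1 hc
      refine h2 n (Finset.mem_Icc.2 ⟨hn.1, by omega⟩) ?_
      rw [nsmul_sub, phi_lin, phi_mem hε2]
      exact hn.2
    refine t1.trans_lt (lt_of_lt_of_le ?_ t2)
    exact_mod_cast Nat.lt_succ_self (m + 1)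
  have hEm : MeasurableSet E := measurableSet_Ico.prod measurableSet_Ico
  have hEf : volume E ≠ ⊤ := by
    rw [E, Measure.volume_eq_prod, Measure.prod_prod]
    exact ENNReal.mul_ne_top measure_Ico_lt_top.ne measure_Ico_lt_top.ne
  have hEv : volume.real E = (2 * π) ^ 2 := by
    have := vol_pre (S := univ) MeasurableSet.univ
    simpa using this
  have hA := vol_pre hS
  have hAm : MeasurableSet (E ∩ Prod.map phi phi ⁻¹' S) :=
    hEm.inter ((measurable_phi.prodMap measurable_phi) hS)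
  have b1 : volume.real (E ∩ Prod.map phi phi ⁻¹' S) ≤ volume.real (E1 ε) :=
    measureReal_mono hsub (measure_ne_top_of_subset (fun _ h => h.1) hEf)
  have b2 : volume.real (E2 ε) ≤ volume.real (E \ (E ∩ Prod.map phi phi ⁻¹' S)) :=
    measureReal_mono (sdiff_subset_sdiff_right hsub) (measure_ne_top_of_subset sdiff_subset hEf)
  rw [measureReal_sdiff inter_subset_left hAm hEf, hEv, hA] at b2
  rw [hA] at b1
  change 1 / 3 ≤ volume.real (E1 ε) - volume.real (E2 ε)
  have h36 : 36 ≤ (2 * π) ^ 2 := by nlinarith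
  nlinarith

end Pool.Agent.Results.MP_a4d326_an.NotAsymptoticallyEqual
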