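import Pool.Agent.Lib.MP_a4d326_an.Q1.Chain

namespace Pool.Agent.Results.MP_a4d326_an.SignChange

open MeasureTheory Set Real
open Pool.Agent.Lib.MP_a4d326_an.Q1

/-- `x mod 2π`, the representative of `x` in `[0, 2π)`. -/
noncomputable def modTwoPi (x : ℝ) : ℝ := toIcoMod Real.two_pi_pos 0 x

/-- The least `n ≥ 1` with `(n a - b) mod 2π < ε`, and `∞` if there is none. -/
noncomputable def tau1 (ε a b : ℝ) : ℕ∞ :=
  ⨅ (n : ℕ) (_ : 1 ≤ n ∧ modTwoPi (n * a - b) < ε), (n : ℕ∞)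

/-- The least `n ≥ 1` with `(n a - n b) mod 2π < ε`, and `∞` if there is none. -/
noncomputable def tau2 (ε a b : ℝ) : ℕ∞ :=
  ⨅ (n : ℕ) (_ : 1 ≤ n ∧ modTwoPi (n * a - n * b) < ε), (n : ℕ∞)

/-- The square `E = [0, 2π)²`. -/
def E : Set (ℝ × ℝ) := Ico 0 (2 * π) ×ˢ Ico 0 (2 * π)

/-- The pairs for which the first orbit arrives strictly earlier. -/
def E1 (ε : ℝ) : Set (ℝ × ℝ) := {p ∈ E | tau1 ε p.1 p.2 < tau2 ε p.1 p.2}

/-- The remaining pairs. -/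
def E2 (ε : ℝ) : Set (ℝ × ℝ) := E \ E1 ε

lemma tau_lt (ε a b : ℝ) : tau1 ε a b < tau2 ε a b ↔ ∃ n : ℕ, 1 ≤ n ∧ modTwoPi (n * a - b) < ε ∧
    ∀ k : ℕ, 1 ≤ k → k ≤ n → ε ≤ modTwoPi (k * a - k * b) := by
  constructor
  · intro h
    obtain ⟨n, hn⟩ := iInf_lt_iff.1 h
    obtain ⟨⟨h1, h2⟩, h3⟩ := iInf_lt_iff.1 hn
    refine ⟨n, h1, h2, fun k k1 k2 => not_lt.1 fun hk => ?_⟩
    have : tau2 ε a b ≤ k := iInf₂_le_of_le k ⟨k1, hk⟩ le_rfl
    exact absurd (by exact_mod_cast h3.trans_le this) (not_lt.2 k2)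
  · rintro ⟨n, h1, h2, h3⟩
    have a1 : tau1 ε a b ≤ n := iInf₂_le_of_le n ⟨h1, h2⟩ le_rfl
    have a2 : ((n + 1 : ℕ) : ℕ∞) ≤ tau2 ε a b := le_iInf₂ fun k hk => by
      have : n + 1 ≤ k := not_lt.1 fun c => absurd hk.2 (not_lt.2 (h3 k hk.1 (by omega)))
      exact_mod_cast this
    exact a1.trans_lt (lt_of_lt_of_le (by exact_mod_cast n.lt_succ_self) a2)

lemma diff_eq {ε : ℝ} (h0 : 0 < ε) (h1 : ε ≤ 2 * π) :
    volume.real (E1 ε) - volume.real (E2 ε) =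
      (2 * π) ^ 2 * (2 * H (ε / (2 * π)) (ε / (2 * π)) - 1) := by
  obtain ⟨m, v⟩ := Link_pf ε h0 h1 (E1 ε) (by
    ext p
    simp only [E1, E, mem_ofPred_eq, tau_lt, modTwoPi])
  have hE : volume E = ENNReal.ofReal (2 * π) * ENNReal.ofReal (2 * π) := by
    rw [E, Measure.volume_eq_prod, Measure.prod_prod, Real.volume_Ico, sub_zero]
  have hr : volume.real E = (2 * π) ^ 2 := by
    rw [Measure.real, hE, ENNReal.toReal_mul, ENNReal.toReal_ofReal Real.two_pi_pos.le, sq]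
  have hfin : volume E ≠ ⊤ := by
    rw [hE]; exact ENNReal.mul_ne_top ENNReal.ofReal_ne_top ENNReal.ofReal_ne_top
  rw [E2, measureReal_sdiff (fun p hp => hp.1) m hfin, hr, v]
  ring

lemma cross : ∃ d : ℝ, 0.08594999 ≤ d ∧ d ≤ 0.08912 ∧ H d d = 1 / 2 ∧
    (∀ δ, 0 < δ → δ < d → 1 / 2 < H δ δ) ∧ ∀ δ, d < δ → δ ≤ 1 → H δ δ < 1 / 2 := by
  have h1 := pl _ le_rfl le_rfl
  have h2 := pu _ le_rfl le_rfl
  have h3 := upAll
  have h4 := decAll
  have h5 := dwAll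
  simp only [Up, Dw, Dec, Nat.cast_ofNat] at h1 h2 h3 h4 h5
  have k : ((92288109 : ℝ) / 1073741824) ≤ 95691871 / 1073741824 := by norm_num
  obtain ⟨d, ⟨d1, d2⟩, d3⟩ := intermediate_value_Icc' k (ct _ _ (by norm_num)) ⟨h2.le, h1.le⟩
  have hd : d ∈ Icc ((87088156 : ℝ) / 1073741824) (99419403 / 1073741824) :=
    ⟨le_trans (by norm_num) d1, d2.trans (by norm_num)⟩
  refine ⟨d, le_trans (by norm_num) d1, d2.trans (by norm_num), d3, fun δ a b => ?_,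
    fun δ a b => ?_⟩
  · rcases le_total δ (1 / 512) with c | c
    · exact af δ a c
    rcases le_total δ (87088156 / 1073741824) with e | e
    · exact h3 δ (le_trans (by norm_num) c) e
    · exact d3.symm.trans_lt (h4 ⟨e, b.le.trans hd.2⟩ hd b)
  · rcases le_total δ (99419403 / 1073741824) with e | e
    · exact (h4 hd ⟨hd.1.trans a.le, e⟩ a).trans_eq d3
    · exact h5 δ (le_trans (by norm_num) e) (b.trans (by norm_num))

theorem result : ∃ c : ℝ, 0.54 < c ∧ c < 0.56 ∧ ∀ ε : ℝ, 0 < ε → ε < 2 * π →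
    (ε < c → volume.real (E2 ε) < volume.real (E1 ε)) ∧
    (ε = c → volume.real (E1 ε) = volume.real (E2 ε)) ∧
    (c < ε → volume.real (E1 ε) < volume.real (E2 ε)) := by
  obtain ⟨d, d1, d2, d3, d4, d5⟩ := cross
  have hp := Real.two_pi_pos
  have p1 := Real.pi_gt_d6
  have p2 := Real.pi_lt_d6
  refine ⟨d * (2 * π), by nlinarith, by nlinarith, fun ε h0 h1 => ?_⟩
  have key := diff_eq h0 h1.le
  have sq : 0 < (2 * π) ^ 2 := by positivity
  refine ⟨fun h => ?_, fun h => ?_, fun h => ?_⟩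
  · have := d4 (ε / (2 * π)) (by positivity) ((div_lt_iff₀ hp).2 h)
    nlinarith
  · have : ε / (2 * π) = d := by rw [h]; field_simp
    rw [this, d3] at key
    linarith
  · have := d5 (ε / (2 * π)) ((lt_div_iff₀ hp).2 h) ((div_le_one hp).2 h1.le)
    nlinarith

end Pool.Agent.Results.MP_a4d326_an.SignChange
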